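import Mathlib

/-!
MP_aaa104_nt, Q1: for `n = 12` there is an `n`-satisfactory coloring of the group of positive
`n`-smooth rationals that is not recovered from the tiling given by one of its color classes.
-/

set_option autoImplicit false

namespace Pool.Agent.Results.MP_aaa104_nt.TwelveColors

/-- `K̂_n`: the positive rationals `a / b` with `a`, `b` both `n`-smooth. -/
def Khat (n : ℕ) : Set ℚ :=
  {x | ∃ a b : ℕ, 0 < a ∧ 0 < b ∧ (∀ p : ℕ, p.Prime → p ∣ a → p ≤ n) ∧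
    (∀ p : ℕ, p.Prime → p ∣ b → p ≤ n) ∧ x = (a : ℚ) / b}

/-- The map `t : K̂_n → ℤ^{π(n)}` of exponents: `t x` is the function that sends a prime `p ≤ n` to
the exponent of `p` in `x`. -/
def expo (n : ℕ) (x : ℚ) : {p : ℕ // p.Prime ∧ p ≤ n} → ℤ := fun p => padicValRat p x

/-- `c` is (on `K̂_n`) an `n`-satisfactory coloring: `c` takes values in `[n]` on `K̂_n`, `c i = i` for
`i ∈ [n]`, and `c (i x) ≠ c (j x)` for all `x ∈ K̂_n` and all `1 ≤ i < j ≤ n`. -/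
def IsSatisfactory (n : ℕ) (c : ℚ → ℕ) : Prop :=
  (∀ x ∈ Khat n, 1 ≤ c x ∧ c x ≤ n) ∧
  (∀ i : ℕ, 1 ≤ i → i ≤ n → c (i : ℚ) = i) ∧
  (∀ x ∈ Khat n, ∀ i j : ℕ, 1 ≤ i → i < j → j ≤ n → c ((i : ℚ) * x) ≠ c ((j : ℚ) * x))

/-- The color class `c⁻¹(k)` in `K̂_n`. -/
def colorClass (n : ℕ) (c : ℚ → ℕ) (k : ℕ) : Set ℚ := {x | x ∈ Khat n ∧ c x = k}

/-- The part `t⁻¹(t(i) + t(X))` of the partition `c'`, where `X` is the color class `c⁻¹(k)`. -/
def tilingPart (n : ℕ) (c : ℚ → ℕ) (k i : ℕ) : Set ℚ :=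
  {y | y ∈ Khat n ∧ ∃ x ∈ colorClass n c k, expo n y = expo n (i : ℚ) + expo n x}

/-- the additive color in `ZMod 12` -/
def CC (x : ℚ) : ZMod 12 :=
  (padicValRat 2 x : ZMod 12) + 8 * (padicValRat 3 x : ZMod 12) + 6 * (padicValRat 5 x : ZMod 12) +
    5 * (padicValRat 7 x : ZMod 12) + 11 * (padicValRat 11 x : ZMod 12) +
    6 * (if padicValRat 7 x + padicValRat 11 x = 2 then 1 else 0)

/-- names of the colors -/
def gg : ZMod 12 → ℕ := ![1, 2, 4, 8, 9, 7, 5, 10, 3, 6, 12, 11]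

theorem gg_inj : ∀ z w : ZMod 12, gg z = gg w → z = w := by decide

theorem gg_range : ∀ z : ZMod 12, 1 ≤ gg z ∧ gg z ≤ 12 := by decide

theorem val_self_other (p q : ℕ) [hp : Fact p.Prime] [hq : Fact q.Prime] (h : p ≠ q) :
    padicValRat p ((q : ℕ) : ℚ) = 0 := by
  rw [padicValRat.of_nat]
  have := padicValNat_primes (p := p) (q := q) h
  exact_mod_cast this

instance f2 : Fact (Nat.Prime 2) := ⟨by norm_num⟩
instance f3 : Fact (Nat.Prime 3) := ⟨by norm_num⟩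
instance f5 : Fact (Nat.Prime 5) := ⟨by norm_num⟩
instance f7 : Fact (Nat.Prime 7) := ⟨by norm_num⟩
instance f11 : Fact (Nat.Prime 11) := ⟨by norm_num⟩

/-- valuation of a product of powers of 2, 3, 5, 7, 11 times `x` -/
theorem val_mul (p : ℕ) [hp : Fact p.Prime] (a b c d e : ℕ) (x : ℚ) (hx : x ≠ 0) :
    padicValRat p ((2 ^ a * 3 ^ b * 5 ^ c * 7 ^ d * 11 ^ e : ℚ) * x) =
      a * padicValRat p (2 : ℚ) + b * padicValRat p (3 : ℚ) + c * padicValRat p (5 : ℚ) +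
      d * padicValRat p (7 : ℚ) + e * padicValRat p (11 : ℚ) + padicValRat p x := by
  rw [padicValRat.mul (by positivity) hx, padicValRat.mul (by positivity) (by positivity),
    padicValRat.mul (by positivity) (by positivity), padicValRat.mul (by positivity) (by positivity),
    padicValRat.mul (by positivity) (by positivity), padicValRat.pow,
    padicValRat.pow, padicValRat.pow, padicValRat.pow, padicValRat.pow]

theorem self2 : padicValRat 2 (2 : ℚ) = 1 := by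
  have := padicValRat.self (p := 2) (by norm_num); exact_mod_cast this
theorem self3 : padicValRat 3 (3 : ℚ) = 1 := by
  have := padicValRat.self (p := 3) (by norm_num); exact_mod_cast this
theorem self5 : padicValRat 5 (5 : ℚ) = 1 := by
  have := padicValRat.self (p := 5) (by norm_num); exact_mod_cast this
theorem self7 : padicValRat 7 (7 : ℚ) = 1 := by
  have := padicValRat.self (p := 7) (by norm_num); exact_mod_cast this
theorem self11 : padicValRat 11 (11 : ℚ) = 1 := by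
  have := padicValRat.self (p := 11) (by norm_num); exact_mod_cast this

theorem oth (p q : ℕ) [Fact p.Prime] [Fact q.Prime] (h : p ≠ q) (r : ℚ) (hr : r = ((q : ℕ) : ℚ)) :
    padicValRat p r = 0 := by
  rw [hr]; exact val_self_other p q h

theorem CC_mul (a b c d e : ℕ) (x : ℚ) (hx : x ≠ 0) :
    CC ((2 ^ a * 3 ^ b * 5 ^ c * 7 ^ d * 11 ^ e : ℚ) * x) =
      (a : ZMod 12) + 8 * b + 6 * c + 5 * d + 11 * e +
      ((padicValRat 2 x : ZMod 12) + 8 * (padicValRat 3 x : ZMod 12) +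
        6 * (padicValRat 5 x : ZMod 12) +
        5 * (padicValRat 7 x : ZMod 12) + 11 * (padicValRat 11 x : ZMod 12)) +
      6 * (if padicValRat 7 x + padicValRat 11 x + (d + e : ℕ) = 2 then 1 else 0) := by
  have e2 : padicValRat 2 ((2 ^ a * 3 ^ b * 5 ^ c * 7 ^ d * 11 ^ e : ℚ) * x) =
      a + padicValRat 2 x := by
    rw [val_mul 2 a b c d e x hx, self2, oth 2 3 (by norm_num) 3 (by norm_num),
      oth 2 5 (by norm_num) 5 (by norm_num), oth 2 7 (by norm_num) 7 (by norm_num),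
      oth 2 11 (by norm_num) 11 (by norm_num)]
    ring
  have e3 : padicValRat 3 ((2 ^ a * 3 ^ b * 5 ^ c * 7 ^ d * 11 ^ e : ℚ) * x) =
      b + padicValRat 3 x := by
    rw [val_mul 3 a b c d e x hx, self3, oth 3 2 (by norm_num) 2 (by norm_num),
      oth 3 5 (by norm_num) 5 (by norm_num), oth 3 7 (by norm_num) 7 (by norm_num),
      oth 3 11 (by norm_num) 11 (by norm_num)]
    ring
  have e5 : padicValRat 5 ((2 ^ a * 3 ^ b * 5 ^ c * 7 ^ d * 11 ^ e : ℚ) * x) =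
      c + padicValRat 5 x := by
    rw [val_mul 5 a b c d e x hx, self5, oth 5 2 (by norm_num) 2 (by norm_num),
      oth 5 3 (by norm_num) 3 (by norm_num), oth 5 7 (by norm_num) 7 (by norm_num),
      oth 5 11 (by norm_num) 11 (by norm_num)]
    ring
  have e7 : padicValRat 7 ((2 ^ a * 3 ^ b * 5 ^ c * 7 ^ d * 11 ^ e : ℚ) * x) =
      d + padicValRat 7 x := by
    rw [val_mul 7 a b c d e x hx, self7, oth 7 2 (by norm_num) 2 (by norm_num),
      oth 7 3 (by norm_num) 3 (by norm_num), oth 7 5 (by norm_num) 5 (by norm_num),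
      oth 7 11 (by norm_num) 11 (by norm_num)]
    ring
  have e11 : padicValRat 11 ((2 ^ a * 3 ^ b * 5 ^ c * 7 ^ d * 11 ^ e : ℚ) * x) =
      e + padicValRat 11 x := by
    rw [val_mul 11 a b c d e x hx, self11, oth 11 2 (by norm_num) 2 (by norm_num),
      oth 11 3 (by norm_num) 3 (by norm_num), oth 11 5 (by norm_num) 5 (by norm_num),
      oth 11 7 (by norm_num) 7 (by norm_num)]
    ring
  unfold CC
  rw [e2, e3, e5, e7, e11]
  have : ((d : ℤ) + padicValRat 7 x + (e + padicValRat 11 x) = 2) ↔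
      (padicValRat 7 x + padicValRat 11 x + ((d + e : ℕ) : ℤ) = 2) := by
    push_cast
    constructor <;> intro h <;> linarith
  simp only [this]
  push_cast
  ring

/-- exponents of `1, …, 12` -/
def ex : ℕ → ℕ × ℕ × ℕ × ℕ × ℕ
  | 1 => (0, 0, 0, 0, 0)
  | 2 => (1, 0, 0, 0, 0)
  | 3 => (0, 1, 0, 0, 0)
  | 4 => (2, 0, 0, 0, 0)
  | 5 => (0, 0, 1, 0, 0)
  | 6 => (1, 1, 0, 0, 0)
  | 7 => (0, 0, 0, 1, 0)
  | 8 => (3, 0, 0, 0, 0)
  | 9 => (0, 2, 0, 0, 0)
  | 10 => (1, 0, 1, 0, 0)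
  | 11 => (0, 0, 0, 0, 1)
  | 12 => (2, 1, 0, 0, 0)
  | _ => (0, 0, 0, 0, 0)

theorem ex_spec (i : ℕ) (h1 : 1 ≤ i) (h2 : i ≤ 12) :
    (i : ℚ) = 2 ^ (ex i).1 * 3 ^ (ex i).2.1 * 5 ^ (ex i).2.2.1 * 7 ^ (ex i).2.2.2.1 *
      11 ^ (ex i).2.2.2.2 := by
  interval_cases i <;> norm_num [ex]

/-- base part of the color -/
def base (x : ℚ) : ZMod 12 :=
  (padicValRat 2 x : ZMod 12) + 8 * (padicValRat 3 x : ZMod 12) + 6 * (padicValRat 5 x : ZMod 12) +
    5 * (padicValRat 7 x : ZMod 12) + 11 * (padicValRat 11 x : ZMod 12)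

/-- additive color of `i` -/
def ph (i : ℕ) : ZMod 12 := ((ex i).1 : ZMod 12) + 8 * (ex i).2.1 + 6 * (ex i).2.2.1 +
  5 * (ex i).2.2.2.1 + 11 * (ex i).2.2.2.2

/-- number of factors 7, 11 -/
def mm (i : ℕ) : ℕ := (ex i).2.2.2.1 + (ex i).2.2.2.2

theorem CC_nat_mul' (i : ℕ) (h1 : 1 ≤ i) (h2 : i ≤ 12) (x : ℚ) (hx : x ≠ 0) :
    CC ((i : ℚ) * x) = ph i + base x +
      6 * (if padicValRat 7 x + padicValRat 11 x + (mm i : ℕ) = 2 then 1 else 0) := by
  rw [ex_spec i h1 h2, CC_mul _ _ _ _ _ x hx]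
  rfl

theorem mm_le : ∀ i : Fin 13, mm i = 0 ∨ mm i = 1 := by decide

theorem distinct : ∀ z s t : ZMod 12, (s = 0 ∨ s = 1) → (t = 0 ∨ t = 1) →
    ∀ i j : Fin 13, 1 ≤ (i : ℕ) → (i : ℕ) < (j : ℕ) →
      ph i + z + 6 * (if mm i = 0 then s else t) ≠ ph j + z + 6 * (if mm j = 0 then s else t) := by
  have key : ∀ s t : Fin 2, ∀ i j : Fin 13, 1 ≤ (i : ℕ) → (i : ℕ) < (j : ℕ) →
      ph i + 6 * (if mm i = 0 then ((s : ℕ) : ZMod 12) else ((t : ℕ) : ZMod 12)) ≠
        ph j + 6 * (if mm j = 0 then ((s : ℕ) : ZMod 12) else ((t : ℕ) : ZMod 12)) := by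
    decide
  intro z s t hs ht i j h1 h2 h
  have hs' : ∃ s' : Fin 2, s = ((s' : ℕ) : ZMod 12) := by
    rcases hs with h | h
    · exact ⟨0, by rw [h]; rfl⟩
    · exact ⟨1, by rw [h]; rfl⟩
  have ht' : ∃ s' : Fin 2, t = ((s' : ℕ) : ZMod 12) := by
    rcases ht with h | h
    · exact ⟨0, by rw [h]; rfl⟩
    · exact ⟨1, by rw [h]; rfl⟩
  obtain ⟨s', rfl⟩ := hs'
  obtain ⟨t', rfl⟩ := ht'
  apply key s' t' i j h1 h2
  linear_combination h

theorem Khat_ne {n : ℕ} {x : ℚ} (hx : x ∈ Khat n) : x ≠ 0 := by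
  obtain ⟨a, b, ha, hb, _, _, rfl⟩ := hx
  positivity

theorem smooth_pow (a b : ℕ) (p : ℕ) (hp : p.Prime) (h : p ∣ 2 ^ a * 7 ^ b) : p ≤ 12 := by
  rcases hp.dvd_mul.1 h with h | h
  · have := (Nat.prime_dvd_prime_iff_eq hp (by norm_num)).1 (hp.dvd_of_dvd_pow h); omega
  · have := (Nat.prime_dvd_prime_iff_eq hp (by norm_num)).1 (hp.dvd_of_dvd_pow h); omega

theorem mem_Khat (a b : ℕ) : ((2 ^ a * 7 ^ b : ℕ) : ℚ) ∈ Khat 12 := by
  refine ⟨2 ^ a * 7 ^ b, 1, by positivity, one_pos, smooth_pow a b, ?_, by simp⟩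
  intro p hp h
  have := Nat.dvd_one.1 h
  exact absurd this hp.one_lt.ne'

theorem CC_two_seven (a d : ℕ) : CC ((2 ^ a * 7 ^ d : ℕ) : ℚ) =
    (a : ZMod 12) + 5 * d + 6 * (if d = 2 then 1 else 0) := by
  have h := CC_mul a 0 0 d 0 1 one_ne_zero
  have e : (((2 ^ a * 7 ^ d : ℕ) : ℚ)) = (2 ^ a * 3 ^ 0 * 5 ^ 0 * 7 ^ d * 11 ^ 0 : ℚ) * 1 := by
    push_cast; ring
  rw [e, h]
  have e2 : (padicValRat 7 (1 : ℚ) + padicValRat 11 (1 : ℚ) + ((d + 0 : ℕ) : ℤ) = 2) ↔ d = 2 := by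
    simp only [padicValRat.one]
    constructor
    · intro h; omega
    · intro h; omega
  simp only [e2]
  simp

/-- Disproof of Q1: for `n = 12` there are a satisfactory coloring `c` of `K̂_n`, a color class
`X = c⁻¹(k)` and an `i ∈ [n]` such that `t⁻¹(t(i) + t(X))` is not a color class of `c`. -/
theorem result : ∃ n : ℕ, 1 ≤ n ∧ ∃ c : ℚ → ℕ, IsSatisfactory n c ∧
    ∃ k i : ℕ, (1 ≤ k ∧ k ≤ n) ∧ (1 ≤ i ∧ i ≤ n) ∧
      ∀ l : ℕ, 1 ≤ l → l ≤ n → tilingPart n c k i ≠ colorClass n c l := by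
  refine ⟨12, by norm_num, fun x => gg (CC x), ⟨fun x _ => gg_range _, ?_, ?_⟩, 1, 7,
    by norm_num, by norm_num, ?_⟩
  · intro i h1 h2
    have h := CC_nat_mul' i h1 h2 1 one_ne_zero
    rw [mul_one] at h
    have e : (padicValRat 7 (1 : ℚ) + padicValRat 11 (1 : ℚ) + ((mm i : ℕ) : ℤ) = 2) ↔ False := by
      simp only [padicValRat.one]
      have := mm_le ⟨i, by omega⟩
      simp only at this
      constructor
      · intro h; omega
      · exact False.elim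
    simp only [e, base, padicValRat.one] at h
    simp only [h]
    interval_cases i <;> decide
  · intro x hx i j h1 hij h2 h
    have hx0 := Khat_ne hx
    have h3 := gg_inj _ _ h
    rw [CC_nat_mul' i h1 (by omega) x hx0, CC_nat_mul' j (by omega) h2 x hx0] at h3
    set m := padicValRat 7 x + padicValRat 11 x with hm
    refine distinct (base x) (if m = 2 then 1 else 0) (if m + 1 = 2 then 1 else 0)
      (by split_ifs <;> simp) (by split_ifs <;> simp) ⟨i, by omega⟩ ⟨j, by omega⟩ h1 hij ?_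
    simp only
    have key : ∀ l : ℕ, l ≤ 12 → (if m + (mm l : ℕ) = 2 then (1 : ZMod 12) else 0) =
        (if mm l = 0 then (if m = 2 then 1 else 0) else (if m + 1 = 2 then 1 else 0)) := by
      intro l hl
      rcases mm_le ⟨l, by omega⟩ with h | h
      · simp only at h; rw [h]; simp
      · simp only at h; rw [h]; simp
    rw [← key i (by omega), ← key j h2]
    exact h3
  · intro l hl1 hl2 h
    -- 7 and 6272 = 2^7 * 7^2 lie in the part, but have different colors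
    have hpart : ∀ a d : ℕ, gg (CC ((2 ^ a * 7 ^ d : ℕ) : ℚ)) = 1 →
        ((2 ^ a * 7 ^ (d + 1) : ℕ) : ℚ) ∈ tilingPart 12 (fun x => gg (CC x)) 1 7 := by
      intro a d hc
      refine ⟨mem_Khat a (d + 1), ((2 ^ a * 7 ^ d : ℕ) : ℚ), ⟨mem_Khat a d, hc⟩, ?_⟩
      funext p
      haveI : Fact (p : ℕ).Prime := ⟨p.2.1⟩
      simp only [expo, Pi.add_apply]
      rw [← padicValRat.mul (by norm_num) (by positivity)]
      congr 1
      push_cast
      ring
    have m1 := hpart 0 0 (by rw [CC_two_seven]; decide)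
    have m2 := hpart 7 1 (by rw [CC_two_seven]; decide)
    rw [h] at m1 m2
    have c1 : gg (CC ((2 ^ 0 * 7 ^ (0 + 1) : ℕ) : ℚ)) = 7 := by rw [CC_two_seven]; decide
    have c2 : gg (CC ((2 ^ 7 * 7 ^ (1 + 1) : ℕ) : ℚ)) = 11 := by rw [CC_two_seven]; decide
    have d1 := m1.2
    have d2 := m2.2
    simp only at d1 d2
    rw [c1] at d1
    rw [c2] at d2
    omega

end Pool.Agent.Results.MP_aaa104_nt.TwelveColors
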